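import Pool.Agent.Olig.Basic

/-!
# Algebraic closure in an oligomorphic group

`exists_omit`: a point outside the algebraic closure of `A` is omitted by an element of the closure
of `G` which fixes `A` pointwise.
-/

open Equiv

namespace Pool.Agent.OligFI

open Pool.Agent.Olig

/-- pointwise stabiliser of a finite set -/
def Fx (G : Subgroup (Perm ℕ)) (A : Finset ℕ) : Subgroup (Perm ℕ) where
  carrier := {g | g ∈ G ∧ ∀ x ∈ A, g x = x}
  one_mem' := ⟨G.one_mem, fun _ _ => rfl⟩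
  mul_mem' := fun {a b} ha hb => ⟨G.mul_mem ha.1 hb.1, fun x hx => by
    rw [Perm.mul_apply, hb.2 x hx, ha.2 x hx]⟩
  inv_mem' := fun {a} ha => ⟨G.inv_mem ha.1, fun x hx => by
    rw [Perm.inv_eq_iff_eq]; exact (ha.2 x hx).symm⟩

theorem mem_Fx {G : Subgroup (Perm ℕ)} {A : Finset ℕ} {g : Perm ℕ} :
    g ∈ Fx G A ↔ g ∈ G ∧ ∀ x ∈ A, g x = x := Iff.rfl

theorem Fx_open (G : Subgroup (Perm ℕ)) (A : Finset ℕ) : OpenIn G (Fx G A) :=
  ⟨fun _ hg => hg.1, A, fun _ hg h => ⟨hg, h⟩⟩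

/-- the orbit of `b` under the pointwise stabiliser of `A` -/
def orb (G : Subgroup (Perm ℕ)) (A : Finset ℕ) (b : ℕ) : Set ℕ := {c | ∃ g ∈ Fx G A, g b = c}

/-- the algebraic closure of `A` -/
def acl (G : Subgroup (Perm ℕ)) (A : Finset ℕ) : Set ℕ := {b | (orb G A b).Finite}

theorem acl_finite {G : Subgroup (Perm ℕ)} (hG : Oligo G) (A : Finset ℕ) : (acl G A).Finite := by
  classical
  obtain ⟨T, hT⟩ := (Fx_open G A).oligo hG 1
  have h : (⋃ t ∈ (T : Set (Fin 1 → ℕ)), {c | (orb G A (t 0)).Finite ∧ c ∈ orb G A (t 0)}).Finite := by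
    refine T.finite_toSet.biUnion fun t _ => ?_
    by_cases ht : (orb G A (t 0)).Finite
    · exact ht.subset fun c hc => hc.2
    · exact Set.finite_empty.subset fun c hc => ht hc.1
  refine h.subset fun b hb => ?_
  obtain ⟨t, ht, g, hg, hgt⟩ := hT (fun _ => b)
  refine Set.mem_biUnion (show t ∈ (T : Set (Fin 1 → ℕ)) from ht) ⟨?_, g, hg, hgt 0⟩
  refine Set.Finite.subset hb ?_
  rintro c ⟨k, hk, hkc⟩
  refine ⟨k * g⁻¹, (Fx G A).mul_mem hk ((Fx G A).inv_mem hg), ?_⟩
  rw [Perm.mul_apply, ← hgt 0, ia, hkc]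

theorem mem_acl_of_mem {G : Subgroup (Perm ℕ)} {A : Finset ℕ} {x : ℕ} (hx : x ∈ A) :
    x ∈ acl G A := by
  refine (Set.finite_singleton x).subset ?_
  rintro c ⟨g, hg, rfl⟩
  exact hg.2 x hx

theorem acl_image {G : Subgroup (Perm ℕ)} {A : Finset ℕ} {k : Perm ℕ} (hk : k ∈ G) {b : ℕ}
    (hb : b ∈ acl G (A.image k)) : k⁻¹ b ∈ acl G A := by
  have h1 : orb G A (k⁻¹ b) ⊆ (⇑k⁻¹) '' (orb G (A.image k) b) := by
    rintro c ⟨g, hg, rfl⟩
    refine ⟨k (g (k⁻¹ b)), ⟨k * g * k⁻¹, ⟨G.mul_mem (G.mul_mem hk hg.1) (G.inv_mem hk),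
      fun x hx => ?_⟩, rfl⟩, ia _ _⟩
    obtain ⟨a, ha, rfl⟩ := Finset.mem_image.1 hx
    rw [Perm.mul_apply, Perm.mul_apply, ia, hg.2 a ha]
  exact (Set.Finite.image _ hb).subset h1

theorem exists_omit {G : Subgroup (Perm ℕ)} (hG : Oligo G) (A : Finset ℕ) (b : ℕ)
    (hb : b ∉ acl G A) : ∃ t, Cl G t ∧ (∀ x ∈ A, t x = x) ∧ ∀ x, t x ≠ b := by
  classical
  let P : ℕ → Perm ℕ → Prop := fun n g =>
    g ∈ Fx G A ∧ b ∉ acl G (A ∪ (Finset.range n).image g)
  have h0 : P 0 1 := ⟨(Fx G A).one_mem, by simpa using hb⟩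
  have hstep : ∀ n g, P n g → ∃ g', P (n + 1) g' ∧ ∀ x < n, g' x = g x := by
    rintro n g ⟨hg, hbn⟩
    set An := A ∪ (Finset.range n).image g with hAn
    have hB := acl_finite hG (insert (g n) An)
    have hex : ∃ c ∈ orb G An b, c ∉ acl G (insert (g n) An) := by
      by_contra hcon
      push Not at hcon
      exact hbn (hB.subset hcon)
    obtain ⟨c, ⟨h, hh, rfl⟩, hc⟩ := hex
    have hhA : ∀ x ∈ An, h⁻¹ x = x := fun x hx => by
      rw [Perm.inv_eq_iff_eq]; exact (hh.2 x hx).symm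
    have hfix : ∀ x < n, (h⁻¹ * g) x = g x := by
      intro x hx
      rw [Perm.mul_apply]
      exact hhA _ (Finset.mem_union_right _ (Finset.mem_image_of_mem _ (Finset.mem_range.2 hx)))
    have himg : (insert (g n) An).image ⇑h⁻¹ =
        A ∪ (Finset.range (n + 1)).image ⇑(h⁻¹ * g) := by
      ext y
      simp only [Finset.mem_image, Finset.mem_union, Finset.mem_insert, Finset.mem_range]
      constructor
      · rintro ⟨x, rfl | hx, rfl⟩
        · exact Or.inr ⟨n, Nat.lt_succ_self n, rfl⟩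
        · rw [hhA x hx]
          rcases Finset.mem_union.1 hx with hx | hx
          · exact Or.inl hx
          · obtain ⟨a, ha, rfl⟩ := Finset.mem_image.1 hx
            have ha' := Finset.mem_range.1 ha
            exact Or.inr ⟨a, by omega, hfix a ha'⟩
      · rintro (hy | ⟨a, ha, rfl⟩)
        · exact ⟨y, Or.inr (Finset.mem_union_left _ hy), hhA y (Finset.mem_union_left _ hy)⟩
        · rcases Nat.lt_or_ge a n with h1 | h1
          · refine ⟨g a, Or.inr (Finset.mem_union_right _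
              (Finset.mem_image_of_mem _ (Finset.mem_range.2 h1))), rfl⟩
          · have h2 : a = n := by omega
            subst h2
            exact ⟨g a, Or.inl rfl, rfl⟩
    refine ⟨h⁻¹ * g, ⟨⟨G.mul_mem (G.inv_mem hh.1) hg.1, fun x hx => ?_⟩, fun hcon => ?_⟩, hfix⟩
    · rw [Perm.mul_apply, hg.2 x hx]
      exact hhA x (Finset.mem_union_left _ hx)
    · rw [← himg] at hcon
      have h3 := acl_image (G.inv_mem hh.1) hcon
      rw [inv_inv] at h3
      exact hc h3
  choose! q hqP hq using hstep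
  let g : ℕ → Perm ℕ := fun n => Nat.rec 1 (fun n v => q n v) n
  have hgs : ∀ n, g (n + 1) = q n (g n) := fun n => rfl
  have hP : ∀ n, P n (g n) := by
    intro n
    induction n with
    | zero => exact h0
    | succ n ih => rw [hgs]; exact hqP n _ ih
  have hstab : ∀ x m, x + 1 ≤ m → g m x = g (x + 1) x := by
    intro x m hm
    induction m, hm using Nat.le_induction with
    | base => rfl
    | succ m hm ih => rw [hgs, hq m _ (hP m) x (by omega), ih]
  refine ⟨fun x => g (x + 1) x, fun F => ?_, fun x hx => (hP (x + 1)).1.2 x hx, fun x hx => ?_⟩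
  · refine ⟨g (F.sup id + 1), (hP (F.sup id + 1)).1.1, fun x hx => ?_⟩
    have hle : x ≤ F.sup id := Finset.le_sup (f := id) hx
    exact hstab x (F.sup id + 1) (by omega)
  · refine (hP (x + 1)).2 (mem_acl_of_mem (Finset.mem_union_right _ ?_))
    rw [← hx]
    exact Finset.mem_image_of_mem _ (Finset.mem_range.2 (Nat.lt_succ_self x))

end Pool.Agent.OligFI
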