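import Pool.Agent.Olig.Basic

/-!
# Removing points from the image of a limit element

`exists_avoid`: an element `t` of the closure of `G` such that the image of `Ψ t` misses `Z`.
-/

open Equiv

namespace Pool.Agent.OligFI

open Pool.Agent.Olig

theorem step_avoid {G : Subgroup (Perm ℕ)} (S : (ℕ → ℕ) → Prop) (Ψ : (ℕ → ℕ) → (ℕ → ℕ))
    (hS : ∀ s, S s → Cl G s) (hSG : ∀ g ∈ G, S ⇑g) (hSm : ∀ s t, S s → S t → S (s ∘ t))
    (hmul : ∀ f f', Cl G f → Cl G f' → Ψ (f ∘ f') = Ψ f ∘ Ψ f')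
    (hinj : ∀ s, S s → Function.Injective (Ψ s))
    (Z : Set ℕ) (hinv : ∀ s, S s → ∀ w, Ψ s w ∈ Z → w ∈ Z)
    (hrem : ∀ w ∈ Z, ∀ F : Finset ℕ, ∃ s, S s ∧ (∀ x ∈ F, ∃ a, s a = x) ∧ ∀ v, Ψ s v ≠ w)
    (n : ℕ) (u : ℕ → ℕ) (hu : S u) :
    ∃ q, S q ∧ (∀ x < n, q x = x) ∧ ∀ z ∈ Z, (∃ a, Ψ u a = z) →
      ∃ z' ∈ Z, z' ≤ z ∧ (∃ a, Ψ u a = z') ∧ ∀ a, Ψ (u ∘ q) a ≠ z' := by
  classical
  by_cases h : ∃ z, z ∈ Z ∧ ∃ a, Ψ u a = z
  · have hz := Nat.find_spec h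
    have hmin : ∀ m, (m ∈ Z ∧ ∃ a, Ψ u a = m) → Nat.find h ≤ m := fun m hm => Nat.find_min' h hm
    set z0 := Nat.find h with hz0
    obtain ⟨hzZ, w, hw⟩ := hz
    have hwZ : w ∈ Z := hinv u hu w (by rw [hw]; exact hzZ)
    obtain ⟨s, hs, hsF, hsw⟩ := hrem w hwZ (Finset.range n)
    have hsF' : ∀ x, ∃ a, x < n → s a = x := by
      intro x
      by_cases hx : x < n
      · obtain ⟨a, ha⟩ := hsF x (Finset.mem_range.2 hx)
        exact ⟨a, fun _ => ha⟩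
      · exact ⟨0, fun h => absurd h hx⟩
    choose a ha using hsF'
    obtain ⟨g, hg, h1⟩ := hS s hs ((Finset.range n).image a)
    have hgi : ∀ x < n, g⁻¹ x = a x := by
      intro x hx
      rw [Perm.inv_eq_iff_eq, h1 (a x) (Finset.mem_image_of_mem _ (Finset.mem_range.2 hx)), ha x hx]
    have hgi' : Cl G ⇑g⁻¹ := Cl.of_mem (G.inv_mem hg)
    refine ⟨s ∘ ⇑g⁻¹, hSm _ _ hs (hSG _ (G.inv_mem hg)), fun x hx => ?_, fun z hz hza => ?_⟩
    · rw [Function.comp_apply, hgi x hx, ha x hx]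
    · refine ⟨z0, hzZ, hmin z ⟨hz, hza⟩, ⟨w, hw⟩, fun b hb => ?_⟩
      rw [hmul _ _ (hS u hu) ((hS s hs).comp hgi'), hmul _ _ (hS s hs) hgi'] at hb
      rw [← hw] at hb
      exact hsw _ (hinj u hu hb)
  · refine ⟨id, ?_, fun x _ => rfl, fun z hz hza => absurd ⟨z, hz, hza⟩ h⟩
    exact hSG 1 G.one_mem

theorem exists_avoid {G : Subgroup (Perm ℕ)} (S : (ℕ → ℕ) → Prop) (Ψ : (ℕ → ℕ) → (ℕ → ℕ))
    (hS : ∀ s, S s → Cl G s) (hSG : ∀ g ∈ G, S ⇑g) (hSm : ∀ s t, S s → S t → S (s ∘ t))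
    (hmul : ∀ f f', Cl G f → Cl G f' → Ψ (f ∘ f') = Ψ f ∘ Ψ f')
    (hinj : ∀ s, S s → Function.Injective (Ψ s))
    (Z : Set ℕ) (hinv : ∀ s, S s → ∀ w, Ψ s w ∈ Z → w ∈ Z)
    (hrem : ∀ w ∈ Z, ∀ F : Finset ℕ, ∃ s, S s ∧ (∀ x ∈ F, ∃ a, s a = x) ∧ ∀ v, Ψ s v ≠ w) :
    ∃ t, Cl G t ∧ ∀ x, Ψ t x ∉ Z := by
  classical
  have hst := step_avoid S Ψ hS hSG hSm hmul hinj Z hinv hrem
  choose! q hqS hqfix hqrem using hst
  let u : ℕ → (ℕ → ℕ) := fun n => Nat.rec id (fun n v => v ∘ q n v) n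
  have hu0 : u 0 = id := rfl
  have hus : ∀ n, u (n + 1) = u n ∘ q n (u n) := fun n => rfl
  have huS : ∀ n, S (u n) := by
    intro n
    induction n with
    | zero => exact hSG 1 G.one_mem
    | succ n ih => rw [hus]; exact hSm _ _ ih (hqS n _ ih)
  let p : ℕ → (ℕ → ℕ) := fun n => q n (u n)
  have hpS : ∀ n, S (p n) := fun n => hqS n _ (huS n)
  have hpfix : ∀ n, ∀ x < n, p n x = x := fun n => hqfix n _ (huS n)
  let w : ℕ → ℕ → (ℕ → ℕ) := fun n k => Nat.rec id (fun k v => v ∘ p (n + k)) k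
  have hws : ∀ n k, w n (k + 1) = w n k ∘ p (n + k) := fun n k => rfl
  have hwS : ∀ n k, S (w n k) := by
    intro n k
    induction k with
    | zero => exact hSG 1 G.one_mem
    | succ k ih => rw [hws]; exact hSm _ _ ih (hpS _)
  have huw : ∀ n k, u (n + k) = u n ∘ w n k := by
    intro n k
    induction k with
    | zero => rfl
    | succ k ih =>
      have e : u (n + (k + 1)) = u (n + k) ∘ p (n + k) := rfl
      rw [hws, e, ih]
      rfl
  have hstab : ∀ n k x, x + 1 ≤ k → w n k x = w n (x + 1) x := by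
    intro n k x hk
    induction k, hk using Nat.le_induction with
    | base => rfl
    | succ k hk ih =>
      rw [hws, Function.comp_apply, hpfix (n + k) x (by omega), ih]
  let v : ℕ → (ℕ → ℕ) := fun n x => w n (x + 1) x
  have hvCl : ∀ n, Cl G (v n) := by
    intro n F
    obtain ⟨g, hg, h1⟩ := hS _ (hwS n (F.sup id + 1)) F
    refine ⟨g, hg, fun x hx => ?_⟩
    rw [h1 x hx]
    have hle : x ≤ F.sup id := Finset.le_sup (f := id) hx
    exact hstab n (F.sup id + 1) x (by omega)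
  have htv : ∀ n, v 0 = u n ∘ v n := by
    intro n
    funext x
    have e1 : w 0 (n + (x + 1)) x = v 0 x := hstab 0 (n + (x + 1)) x (by omega)
    have e2 : u (n + (x + 1)) = u n ∘ w n (x + 1) := huw n (x + 1)
    have e3 : u (0 + (n + (x + 1))) = u 0 ∘ w 0 (n + (x + 1)) :=
      huw 0 (n + (x + 1))
    rw [Nat.zero_add, e2, hu0] at e3
    have e4 := congrFun e3 x
    simp only [Function.comp_apply, id_eq] at e4 ⊢
    rw [← e1, ← e4]
  refine ⟨v 0, hvCl 0, fun x hx => ?_⟩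
  have hmem : ∀ n, ∃ a, Ψ (u n) a = Ψ (v 0) x := by
    intro n
    refine ⟨Ψ (v n) x, ?_⟩
    rw [htv n, hmul _ _ (hS _ (huS n)) (hvCl n)]
    rfl
  have hz : ∀ n, ∃ z' ∈ Z, z' ≤ Ψ (v 0) x ∧ (∃ a, Ψ (u n) a = z') ∧
      ∀ a, Ψ (u (n + 1)) a ≠ z' := fun n => hqrem n (u n) (huS n) _ hx (hmem n)
  choose z hzZ hzle hzin hzout using hz
  have hzinj : Function.Injective z := by
    have key : ∀ n m, n < m → z n ≠ z m := by
      intro n m hnm he
      obtain ⟨a, ha⟩ := hzin m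
      obtain ⟨k, rfl⟩ := Nat.exists_eq_add_of_lt hnm
      have h1 : u (n + k + 1) = u (n + 1) ∘ w (n + 1) k := by
        rw [show n + k + 1 = n + 1 + k by omega]
        exact huw (n + 1) k
      have h2 := hmul (u (n + 1)) (w (n + 1) k) (hS _ (huS (n + 1))) (hS _ (hwS (n + 1) k))
      rw [h1, h2, ← he] at ha
      exact hzout n _ ha
    intro n m h
    rcases lt_trichotomy n m with h1 | h1 | h1
    · exact absurd h (key n m h1)
    · exact h1
    · exact absurd h.symm (key m n h1)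
  have hfin : (Set.range z).Finite := by
    refine (Set.finite_Iic (Ψ (v 0) x)).subset ?_
    rintro _ ⟨n, rfl⟩
    exact hzle n
  exact Set.infinite_range_of_injective hzinj hfin

end Pool.Agent.OligFI
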