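import Pool.Agent.Olig.Ultra

/-!
# Closed graph theorem for closed permutation groups

`baire_open`: the closure of a subgroup of countable index is open.
`closed_graph`: an isomorphism with closed graph is continuous.
-/

open Equiv

namespace Pool.Agent.OligFI

open Pool.Agent.Olig

/-- the closure of a subgroup is closed under products of inverses -/
theorem cl_div {V : Subgroup (Perm ℕ)} {g h : Perm ℕ} (hg : Cl V g) (hh : Cl V h) :
    Cl V (⇑(g⁻¹ * h)) := by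
  classical
  intro F
  obtain ⟨v, hv, h1⟩ := hh F
  obtain ⟨w, hw, h2⟩ := hg (F.image fun x => g⁻¹ (h x))
  refine ⟨w⁻¹ * v, V.mul_mem (V.inv_mem hw) hv, fun x hx => ?_⟩
  rw [Perm.mul_apply, h1 x hx, Perm.inv_eq_iff_eq]
  have h3 := h2 _ (Finset.mem_image_of_mem _ hx)
  rw [Perm.mul_apply, h3, ai]

/-- Baire category: the closure of a subgroup of countable index is open. -/
theorem baire_open {G V : Subgroup (Perm ℕ)} (hc : ClosedG G) (hVG : V ≤ G) (κ : Type)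
    [Countable κ] (r : Perm ℕ → κ) (hr : ∀ g ∈ G, ∀ g' ∈ G, r g = r g' → g⁻¹ * g' ∈ V) :
    ∃ E : Finset ℕ, ∀ g ∈ G, (∀ x ∈ E, g x = x) → Cl V g := by
  classical
  by_contra hcon
  push Not at hcon
  haveI : Nonempty κ := ⟨r 1⟩
  obtain ⟨en, hen⟩ := exists_surjective_nat κ
  have hcc : ∀ i : ℕ, ∃ c ∈ G, ∀ g ∈ G, r g = en i → c⁻¹ * g ∈ V := by
    intro i
    by_cases h : ∃ c ∈ G, r c = en i
    · obtain ⟨c, hcG, h1⟩ := h
      exact ⟨c, hcG, fun g hg h2 => hr c hcG g hg (h1.trans h2.symm)⟩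
    · exact ⟨1, G.one_mem, fun g hg h2 => absurd ⟨g, hg, h2⟩ h⟩
  choose c hcG hcV using hcc
  -- the step
  have hstep : ∀ (n : ℕ) (g : Perm ℕ) (A : Finset ℕ), g ∈ G → ∃ g' ∈ G, ∃ A' : Finset ℕ, A ⊆ A' ∧
      (∀ x ∈ A, g' x = g x) ∧ n ∈ A' ∧ g'⁻¹ n ∈ A' ∧
      ∀ k ∈ G, (∀ x ∈ A', k x = g' x) → (c n)⁻¹ * k ∉ V := by
    intro n g A hg
    have h1 : ∃ g' ∈ G, (∀ x ∈ A, g' x = g x) ∧ ¬ Cl V ⇑((c n)⁻¹ * g') := by
      by_contra h2
      push Not at h2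
      obtain ⟨k, hk, hkA, hkV⟩ := hcon A
      have e1 := h2 g hg (fun _ _ => rfl)
      have e2 := h2 (g * k) (G.mul_mem hg hk) (fun x hx => by
        rw [Perm.mul_apply, hkA x hx])
      have e3 := cl_div e1 e2
      have e4 : ((c n)⁻¹ * g)⁻¹ * ((c n)⁻¹ * (g * k)) = k := by group
      rw [e4] at e3
      exact hkV e3
    obtain ⟨g', hg', hA, hn⟩ := h1
    unfold Cl at hn
    push Not at hn
    obtain ⟨F, hF⟩ := hn
    refine ⟨g', hg', A ∪ F ∪ {n, g'⁻¹ n}, ?_, hA, ?_, ?_, fun k hk hkA hkV => ?_⟩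
    · intro x hx
      exact Finset.mem_union_left _ (Finset.mem_union_left _ hx)
    · exact Finset.mem_union_right _ (by simp)
    · exact Finset.mem_union_right _ (by simp)
    · obtain ⟨x, hx, hne⟩ := hF _ hkV
      refine hne ?_
      rw [Perm.mul_apply, Perm.mul_apply,
        hkA x (Finset.mem_union_left _ (Finset.mem_union_right _ hx))]
  choose! q hqG B hAB hqA hqn hqi hqV using hstep
  let st : ℕ → Perm ℕ × Finset ℕ := fun n =>
    Nat.rec (1, ∅) (fun n p => (q n p.1 p.2, B n p.1 p.2)) n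
  have hst : ∀ n, st (n + 1) = (q n (st n).1 (st n).2, B n (st n).1 (st n).2) := fun n => rfl
  have hG : ∀ n, (st n).1 ∈ G := by
    intro n
    induction n with
    | zero => exact G.one_mem
    | succ n ih => rw [hst]; exact hqG n _ _ ih
  have hsub : ∀ n m, n ≤ m → (st n).2 ⊆ (st m).2 := by
    intro n m h
    induction m, h using Nat.le_induction with
    | base => exact subset_rfl
    | succ m hm ih => exact ih.trans (by rw [hst m]; exact hAB m _ _ (hG m))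
  have hag : ∀ n m, n ≤ m → ∀ x ∈ (st n).2, (st m).1 x = (st n).1 x := by
    intro n m h
    induction m, h using Nat.le_induction with
    | base => exact fun _ _ => rfl
    | succ m hm ih =>
      intro x hx
      rw [hst m]
      show q m (st m).1 (st m).2 x = _
      rw [hqA m _ _ (hG m) x (hsub n m hm hx), ih x hx]
  have hmem : ∀ n, n ∈ (st (n + 1)).2 := fun n => by rw [hst]; exact hqn n _ _ (hG n)
  have hmem' : ∀ n, (st (n + 1)).1⁻¹ n ∈ (st (n + 1)).2 := fun n => by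
    rw [hst]; exact hqi n _ _ (hG n)
  let f : ℕ → ℕ := fun x => (st (x + 1)).1 x
  have hf : ∀ n, ∀ x ∈ (st n).2, f x = (st n).1 x := by
    intro n x hx
    have h1 := hag n (max n (x + 1)) (le_max_left _ _) x hx
    have h2 := hag (x + 1) (max n (x + 1)) (le_max_right _ _) x (hmem x)
    show (st (x + 1)).1 x = _
    rw [← h1, ← h2]
  have hfl : ∀ F : Finset ℕ, ∃ n, ∀ x ∈ F, x ∈ (st n).2 := by
    intro F
    refine ⟨F.sup id + 1, fun x hx => ?_⟩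
    have hle : x ≤ F.sup id := Finset.le_sup (f := id) hx
    exact hsub (x + 1) (F.sup id + 1) (by omega) (hmem x)
  have hinj : Function.Injective f := by
    intro x y hxy
    obtain ⟨n, hn⟩ := hfl {x, y}
    rw [hf n x (hn x (by simp)), hf n y (hn y (by simp))] at hxy
    exact (st n).1.injective hxy
  have hsur : Function.Surjective f := by
    intro n
    refine ⟨(st (n + 1)).1⁻¹ n, ?_⟩
    rw [hf (n + 1) _ (hmem' n), ai]
  let k : Perm ℕ := Equiv.ofBijective f ⟨hinj, hsur⟩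
  have hk : ∀ x, k x = f x := fun _ => rfl
  have hkG : k ∈ G := by
    refine hc k fun F => ?_
    obtain ⟨n, hn⟩ := hfl F
    exact ⟨(st n).1, hG n, fun x hx => by rw [hk, hf n x (hn x hx)]⟩
  obtain ⟨i, hi⟩ := hen (r k)
  refine hqV i (st i).1 (st i).2 (hG i) k hkG (fun x hx => ?_) (hcV i k hkG hi.symm)
  rw [hk]
  exact hf (i + 1) x hx

/-- the pointwise stabiliser in the image, as a subgroup of the domain -/
def Fp {G D : Subgroup (Perm ℕ)} (φ : G ≃* D) (l : List ℕ) : Subgroup (Perm ℕ) where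
  carrier := {g | ∃ h : g ∈ G, ∀ y ∈ l, (φ ⟨g, h⟩ : Perm ℕ) y = y}
  one_mem' := ⟨G.one_mem, fun y _ => by
    have : (⟨1, G.one_mem⟩ : G) = 1 := rfl
    rw [this, map_one]; rfl⟩
  mul_mem' := by
    rintro a b ⟨ha, h1⟩ ⟨hb, h2⟩
    refine ⟨G.mul_mem ha hb, fun y hy => ?_⟩
    have : (⟨a * b, G.mul_mem ha hb⟩ : G) = ⟨a, ha⟩ * ⟨b, hb⟩ := rfl
    rw [this, map_mul]
    show (φ ⟨a, ha⟩ : Perm ℕ) ((φ ⟨b, hb⟩ : Perm ℕ) y) = y
    rw [h2 y hy, h1 y hy]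
  inv_mem' := by
    rintro a ⟨ha, h1⟩
    refine ⟨G.inv_mem ha, fun y hy => ?_⟩
    have : (⟨a⁻¹, G.inv_mem ha⟩ : G) = (⟨a, ha⟩ : G)⁻¹ := rfl
    rw [this, map_inv]
    show (φ ⟨a, ha⟩ : Perm ℕ)⁻¹ y = y
    rw [Perm.inv_eq_iff_eq, h1 y hy]

theorem Fp_open {G D : Subgroup (Perm ℕ)} (hc : ClosedG G) (φ : G ≃* D) (l : List ℕ) :
    ∃ E : Finset ℕ, ∀ g ∈ G, (∀ x ∈ E, g x = x) → Cl (Fp φ l) g := by
  classical
  refine baire_open hc (fun g hg => hg.1) (List ℕ)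
    (fun g => if h : g ∈ G then l.map (φ ⟨g, h⟩ : Perm ℕ) else []) ?_
  intro g hg g' hg' h
  rw [dif_pos hg, dif_pos hg'] at h
  refine ⟨G.mul_mem (G.inv_mem hg) hg', fun y hy => ?_⟩
  have e1 : (⟨g⁻¹ * g', G.mul_mem (G.inv_mem hg) hg'⟩ : G) = (⟨g, hg⟩ : G)⁻¹ * ⟨g', hg'⟩ := rfl
  rw [e1, map_mul, map_inv]
  show (φ ⟨g, hg⟩ : Perm ℕ)⁻¹ ((φ ⟨g', hg'⟩ : Perm ℕ) y) = y
  rw [Perm.inv_eq_iff_eq]
  exact ((List.map_inj_left.1 h) y hy).symm

/-- Closed graph theorem. -/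
theorem closed_graph {G D : Subgroup (Perm ℕ)} (hG : ClosedG G) (hD : ClosedG D) (φ : G ≃* D)
    (hcg : ∀ (g : G) (h : D), (∀ E E' : Finset ℕ, ∃ γ : G,
      (∀ x ∈ E, (γ : Perm ℕ) x = (g : Perm ℕ) x) ∧
      ∀ y ∈ E', (φ γ : Perm ℕ) y = (h : Perm ℕ) y) → h = φ g) (y : ℕ) :
    ∃ E : Finset ℕ, ∀ g : G, (∀ x ∈ E, (g : Perm ℕ) x = x) → (φ g : Perm ℕ) y = y := by
  classical
  obtain ⟨E0, hE0⟩ := Fp_open hG φ [y]
  refine ⟨E0, fun g hg => ?_⟩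
  have hcl := hE0 g g.2 hg
  let C : List (ℕ × ℕ) → Prop := fun q => ∀ E : Finset ℕ, ∃ γ : G,
    (∀ x ∈ E, (γ : Perm ℕ) x = (g : Perm ℕ) x) ∧ ∀ p ∈ q, (φ γ : Perm ℕ) p.1 = p.2
  have hC0 : C [(y, y)] := by
    intro E
    obtain ⟨v, ⟨hv, h1⟩, h2⟩ := hcl E
    refine ⟨⟨v, hv⟩, h2, fun p hp => ?_⟩
    rw [List.mem_singleton] at hp
    subst hp
    exact h1 y (by simp)
  have forth : ∀ q, C q → ∀ a, ∃ b, C ((a, b) :: q) := by
    intro q hq a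
    obtain ⟨E1, hE1⟩ := Fp_open hG φ (a :: q.map Prod.fst)
    obtain ⟨γ, h1, h2⟩ := hq E1
    have h3 := hE1 _ (γ⁻¹ * g).2 (fun x hx => by
      show (γ : Perm ℕ)⁻¹ ((g : Perm ℕ) x) = x
      rw [Perm.inv_eq_iff_eq]; exact (h1 x hx).symm)
    refine ⟨(φ γ : Perm ℕ) a, fun E => ?_⟩
    obtain ⟨v, ⟨hv, h4⟩, h5⟩ := h3 E
    refine ⟨γ * ⟨v, hv⟩, fun x hx => ?_, fun p hp => ?_⟩
    · show (γ : Perm ℕ) (v x) = _
      rw [h5 x hx]
      show (γ : Perm ℕ) ((γ : Perm ℕ)⁻¹ ((g : Perm ℕ) x)) = _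
      rw [ai]
    · rw [map_mul]
      show (φ γ : Perm ℕ) ((φ ⟨v, hv⟩ : Perm ℕ) p.1) = p.2
      rcases List.mem_cons.1 hp with rfl | hp
      · rw [h4 _ List.mem_cons_self]
      · rw [h4 _ (List.mem_cons_of_mem _ (List.mem_map_of_mem hp)), h2 p hp]
  have back : ∀ q, C q → ∀ b, ∃ a, C ((a, b) :: q) := by
    intro q hq b
    obtain ⟨E1, hE1⟩ := Fp_open hG φ (b :: q.map Prod.snd)
    obtain ⟨γ, h1, h2⟩ := hq (E1.image ⇑(g : Perm ℕ)⁻¹)
    have h3 := hE1 _ (g * γ⁻¹).2 (fun x hx => by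
      show (g : Perm ℕ) ((γ : Perm ℕ)⁻¹ x) = x
      have e1 := h1 _ (Finset.mem_image_of_mem _ hx)
      rw [ai] at e1
      have e2 : (γ : Perm ℕ)⁻¹ x = (g : Perm ℕ)⁻¹ x := by
        rw [Perm.inv_eq_iff_eq]; exact e1.symm
      rw [e2, ai])
    refine ⟨(φ γ : Perm ℕ)⁻¹ b, fun E => ?_⟩
    obtain ⟨v, ⟨hv, h4⟩, h5⟩ := h3 (E.image ⇑(γ : Perm ℕ))
    refine ⟨⟨v, hv⟩ * γ, fun x hx => ?_, fun p hp => ?_⟩
    · show v ((γ : Perm ℕ) x) = _
      rw [h5 _ (Finset.mem_image_of_mem _ hx)]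
      show (g : Perm ℕ) ((γ : Perm ℕ)⁻¹ ((γ : Perm ℕ) x)) = _
      rw [ia]
    · rw [map_mul]
      show (φ ⟨v, hv⟩ : Perm ℕ) ((φ γ : Perm ℕ) p.1) = p.2
      rcases List.mem_cons.1 hp with rfl | hp
      · show (φ ⟨v, hv⟩ : Perm ℕ) ((φ γ : Perm ℕ) ((φ γ : Perm ℕ)⁻¹ b)) = b
        rw [ai, h4 _ List.mem_cons_self]
      · rw [h2 p hp, h4 _ (List.mem_cons_of_mem _ (List.mem_map_of_mem hp))]
  obtain ⟨e, he⟩ := back_and_forth (A := ℕ) (fun l => ∃ l', l' = l ∧ C (l ++ [(y, y)]))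
    ⟨[], rfl, hC0⟩
    (fun l ⟨_, _, hl⟩ x => by
      obtain ⟨b, hb⟩ := forth _ hl x
      exact ⟨b, _, rfl, hb⟩)
    (fun l ⟨_, _, hl⟩ n => by
      obtain ⟨a, ha⟩ := back _ hl n
      exact ⟨a, _, rfl, ha⟩)
    (fun l ⟨_, _, hl⟩ p hp p' hp' => by
      obtain ⟨γ, _, h2⟩ := hl ∅
      have e1 := h2 p (List.mem_append_left _ hp)
      have e2 := h2 p' (List.mem_append_left _ hp')
      rw [← e1, ← e2]
      exact (φ γ : Perm ℕ).injective.eq_iff.symm)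
  have heD : (e : Perm ℕ) ∈ D := by
    refine hD _ fun F => ?_
    obtain ⟨l, ⟨_, _, hl⟩, hle⟩ := he F
    obtain ⟨γ, _, h2⟩ := hl ∅
    exact ⟨φ γ, (φ γ).2, fun x hx => h2 (x, e x) (List.mem_append_left _ (hle x hx))⟩
  have hey : e y = y := by
    obtain ⟨l, ⟨_, _, hl⟩, hle⟩ := he {y}
    obtain ⟨γ, _, h2⟩ := hl ∅
    have e1 := h2 (y, e y) (List.mem_append_left _ (hle y (by simp)))
    have e2 := h2 (y, y) (List.mem_append_right _ (by simp))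
    exact e1.symm.trans e2
  have hfin : (⟨e, heD⟩ : D) = φ g := by
    refine hcg g ⟨e, heD⟩ fun E E' => ?_
    obtain ⟨l, ⟨_, _, hl⟩, hle⟩ := he E'
    obtain ⟨γ, h1, h2⟩ := hl E
    exact ⟨γ, h1, fun x hx => h2 (x, e x) (List.mem_append_left _ (hle x hx))⟩
  rw [← hfin]
  exact hey

end Pool.Agent.OligFI
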