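import Pool.Agent.OligFI.Avoid
import Pool.Agent.OligFI.Acl
import Pool.Agent.OligFI.Graph

/-!
# Isomorphisms of the closure of `G` with a closed monoid are continuous on `G`
-/

open Equiv

namespace Pool.Agent.OligFI

open Pool.Agent.Olig

/-- An isomorphism `ψ` from the closure of `G` onto the monoid `N`, with inverse `θ`. The closure of
`D` is contained in `N` and `φ : G ≃* D` is the restriction of `ψ`. -/
structure Iso (G D : Subgroup (Perm ℕ)) (N : (ℕ → ℕ) → Prop) (ψ θ : (ℕ → ℕ) → (ℕ → ℕ))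
    (φ : G ≃* D) : Prop where
  cl : ∀ f, Cl D f → N f
  ins : ∀ f, Cl G f → N (ψ f)
  fro : ∀ f, N f → Cl G (θ f)
  mul : ∀ f f', Cl G f → Cl G f' → ψ (f ∘ f') = ψ f ∘ ψ f'
  mul' : ∀ f f', N f → N f' → θ (f ∘ f') = θ f ∘ θ f'
  left : ∀ f, Cl G f → θ (ψ f) = f
  right : ∀ f, N f → ψ (θ f) = f
  ext : ∀ g : G, ψ ⇑(g : Perm ℕ) = ⇑(φ g : Perm ℕ)

section

variable {G D : Subgroup (Perm ℕ)} {N : (ℕ → ℕ) → Prop} {ψ θ : (ℕ → ℕ) → (ℕ → ℕ)} {φ : G ≃* D}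

theorem Iso.ext' (h : Iso G D N ψ θ φ) (d : D) : θ ⇑(d : Perm ℕ) = ⇑(φ.symm d : Perm ℕ) := by
  have h1 := h.ext (φ.symm d)
  rw [φ.apply_symm_apply] at h1
  rw [← h1, h.left _ (Cl.of_mem (φ.symm d).2)]

/-- Lemma A: `x` is in the image of `θ t` if the image of `t` contains a suitable finite set. -/
theorem Iso.lemmaA (h : Iso G D N ψ θ φ) (x : ℕ) : ∃ F : Finset ℕ, ∀ t, Cl D t →
    (∀ y ∈ F, ∃ a, t a = y) → ∃ a, θ t a = x := by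
  classical
  set Z : Set ℕ := {x | ∀ F : Finset ℕ, ∃ t, Cl D t ∧ (∀ y ∈ F, ∃ a, t a = y) ∧ ∀ v, θ t v ≠ x}
    with hZ
  have hmulD : ∀ f f', Cl D f → Cl D f' → θ (f ∘ f') = θ f ∘ θ f' :=
    fun f f' hf hf' => h.mul' f f' (h.cl f hf) (h.cl f' hf')
  have hinvG : ∀ g : G, ∀ w, (g : Perm ℕ) w ∈ Z → w ∈ Z := by
    intro g w hw F
    obtain ⟨t, ht, h1, h2⟩ := hw (F.image ⇑(φ g : Perm ℕ))
    have hd : Cl D ⇑((φ g)⁻¹ : D).1 := Cl.of_mem ((φ g)⁻¹ : D).2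
    refine ⟨⇑((φ g)⁻¹ : D).1 ∘ t, hd.comp ht, fun y hy => ?_, fun v hv => ?_⟩
    · obtain ⟨a, ha⟩ := h1 _ (Finset.mem_image_of_mem _ hy)
      refine ⟨a, ?_⟩
      rw [Function.comp_apply, ha]
      exact ia _ _
    · rw [hmulD _ _ hd ht, h.ext', map_inv, φ.symm_apply_apply] at hv
      refine h2 v ?_
      have h3 : (g : Perm ℕ) ((g : Perm ℕ)⁻¹ (θ t v)) = (g : Perm ℕ) w := congrArg _ hv
      rwa [ai] at h3
  obtain ⟨t, ht, h1⟩ := exists_avoid (G := D) (fun s => Cl D s) θ (fun s hs => hs)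
    (fun g hg => Cl.of_mem hg) (fun s t hs ht => hs.comp ht) hmulD
    (fun s hs => (h.fro s (h.cl s hs)).injective) Z (fun s hs w hw => by
      obtain ⟨g, hg, h2⟩ := h.fro s (h.cl s hs) {w}
      rw [← h2 w (by simp)] at hw
      exact hinvG ⟨g, hg⟩ w hw) (fun w hw F => hw F)
  by_contra hcon
  push Not at hcon
  have hx : x ∈ Z := fun F => by
    obtain ⟨t, ht, h2, h3⟩ := hcon F
    exact ⟨t, ht, h2, h3⟩
  obtain ⟨g, hg, h2⟩ := h.fro t (h.cl t ht) {x}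
  refine h1 x ?_
  rw [← h2 x (by simp)]
  refine hinvG (⟨g, hg⟩⁻¹ : G) _ ?_
  have : ((⟨g, hg⟩⁻¹ : G) : Perm ℕ) (g x) = x := ia g x
  rw [this]
  exact hx

/-- the set of points which can be removed by elements of `T` -/
def Zt (G D : Subgroup (Perm ℕ)) (ψ : (ℕ → ℕ) → (ℕ → ℕ)) : Set ℕ :=
  {y | ∀ F : Finset ℕ, ∃ s, (Cl G s ∧ Cl D (ψ s)) ∧ (∀ x ∈ F, ∃ a, s a = x) ∧ ∀ v, ψ s v ≠ y}

theorem Iso.zt_inv (h : Iso G D N ψ θ φ) (g : G) (w : ℕ) (hw : (φ g : Perm ℕ) w ∈ Zt G D ψ) :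
    w ∈ Zt G D ψ := by
  classical
  intro F
  obtain ⟨t, ⟨ht, ht'⟩, h1, h2⟩ := hw (F.image ⇑(g : Perm ℕ))
  have hd : Cl G ⇑(g⁻¹ : G).1 := Cl.of_mem (g⁻¹ : G).2
  have e1 : ψ (⇑(g⁻¹ : G).1 ∘ t) = ⇑((φ g)⁻¹ : D).1 ∘ ψ t := by
    rw [h.mul _ _ hd ht, h.ext, map_inv]
  refine ⟨⇑(g⁻¹ : G).1 ∘ t, ⟨hd.comp ht, ?_⟩, fun y hy => ?_, fun v hv => ?_⟩
  · rw [e1]
    exact (Cl.of_mem ((φ g)⁻¹ : D).2).comp ht'
  · obtain ⟨a, ha⟩ := h1 _ (Finset.mem_image_of_mem _ hy)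
    refine ⟨a, ?_⟩
    rw [Function.comp_apply, ha]
    exact ia _ _
  · rw [e1] at hv
    refine h2 v ?_
    have h3 : (φ g : Perm ℕ) ((φ g : Perm ℕ)⁻¹ (ψ t v)) = (φ g : Perm ℕ) w := congrArg _ hv
    rwa [ai] at h3

theorem Iso.zt_inv' (h : Iso G D N ψ θ φ) (g : G) (w : ℕ) (hw : w ∈ Zt G D ψ) :
    (φ g : Perm ℕ) w ∈ Zt G D ψ := by
  refine h.zt_inv g⁻¹ _ ?_
  rw [map_inv]
  have : ((φ g)⁻¹ : D).1 ((φ g : Perm ℕ) w) = w := ia _ _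
  rw [this]
  exact hw

/-- Lemma B -/
theorem Iso.lemmaB (h : Iso G D N ψ θ φ) : ∃ t, Cl G t ∧ ∀ x, ψ t x ∉ Zt G D ψ := by
  classical
  refine exists_avoid (G := G) (fun s => Cl G s ∧ Cl D (ψ s)) ψ (fun s hs => hs.1)
    (fun g hg => ⟨Cl.of_mem hg, ?_⟩) (fun s t hs ht => ⟨hs.1.comp ht.1, ?_⟩) h.mul
    (fun s hs => hs.2.injective) _ (fun s hs w hw => ?_) (fun w hw F => hw F)
  · have := h.ext ⟨g, hg⟩
    simp only at this
    rw [this]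
    exact Cl.of_mem (φ ⟨g, hg⟩).2
  · rw [h.mul _ _ hs.1 ht.1]
    exact hs.2.comp ht.2
  · obtain ⟨d, hd, h2⟩ := hs.2 {w}
    rw [← h2 w (by simp)] at hw
    refine h.zt_inv (φ.symm ⟨d, hd⟩) w ?_
    rw [φ.apply_symm_apply]
    exact hw

/-- Lemma D: outside `Zt` some open subgroup has finite orbits. -/
theorem Iso.lemmaD (h : Iso G D N ψ θ φ) (hD : Oligo D) (y : ℕ) (hy : y ∉ Zt G D ψ) :
    ∃ F : Finset ℕ, {z | ∃ g : G, (∀ x ∈ F, (g : Perm ℕ) x = x) ∧ (φ g : Perm ℕ) y = z}.Finite := by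
  classical
  have hy' : ∃ F : Finset ℕ, ∀ s, Cl G s → Cl D (ψ s) → (∀ x ∈ F, ∃ a, s a = x) →
      ∃ v, ψ s v = y := by
    by_contra hcon
    push Not at hcon
    refine hy fun F => ?_
    obtain ⟨s, h1, h2, h3, h4⟩ := hcon F
    exact ⟨s, ⟨h1, h2⟩, h3, h4⟩
  obtain ⟨F, hF⟩ := hy'
  choose F' hF' using h.lemmaA
  refine ⟨F, (acl_finite hD (F.biUnion F')).subset ?_⟩
  rintro z ⟨g, hg, rfl⟩
  by_contra hz
  obtain ⟨t, ht, hfix, hne⟩ := exists_omit hD _ _ hz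
  have hθ : Cl G (θ t) := h.fro t (h.cl t ht)
  have hgi : Cl G ⇑(g⁻¹ : G).1 := Cl.of_mem (g⁻¹ : G).2
  have e1 : ψ (⇑(g⁻¹ : G).1 ∘ θ t) = ⇑((φ g)⁻¹ : D).1 ∘ t := by
    rw [h.mul _ _ hgi hθ, h.ext, map_inv, h.right t (h.cl t ht)]
  obtain ⟨v, hv⟩ := hF (⇑(g⁻¹ : G).1 ∘ θ t) (hgi.comp hθ)
    (by rw [e1]; exact (Cl.of_mem ((φ g)⁻¹ : D).2).comp ht) (fun x hx => by
      obtain ⟨a, ha⟩ := hF' x t ht (fun y hy => ⟨y, hfix y (Finset.mem_biUnion.2 ⟨x, hx, hy⟩)⟩)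
      refine ⟨a, ?_⟩
      rw [Function.comp_apply, ha]
      show (g : Perm ℕ)⁻¹ x = x
      rw [Perm.inv_eq_iff_eq]
      exact (hg x hx).symm)
  rw [e1] at hv
  refine hne v ?_
  have h3 : (φ g : Perm ℕ) ((φ g : Perm ℕ)⁻¹ (t v)) = (φ g : Perm ℕ) y := congrArg _ hv
  rwa [ai] at h3

/-- every subgroup of finite index in an open subgroup of `G` is open -/
def FIO (G : Subgroup (Perm ℕ)) : Prop :=
  ∀ U H : Subgroup (Perm ℕ), OpenIn G U → H ≤ U → H.relIndex U ≠ 0 → OpenIn G H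

theorem Iso.open_of_notMem (h : Iso G D N ψ θ φ) (hD : Oligo D) (hFI : FIO G) (y : ℕ)
    (hy : y ∉ Zt G D ψ) :
    ∃ E : Finset ℕ, ∀ g : G, (∀ x ∈ E, (g : Perm ℕ) x = x) → (φ g : Perm ℕ) y = y := by
  classical
  obtain ⟨F, hF⟩ := h.lemmaD hD y hy
  let ρ : Fx G F →* Perm ℕ :=
    (D.subtype.comp φ.toMonoidHom).comp (Subgroup.inclusion (Fx_open G F).le)
  have hρ : ∀ u : Fx G F, ρ u = (φ ⟨u.1, u.2.1⟩ : Perm ℕ) := fun u => rfl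
  letI act : MulAction (Fx G F) ℕ := MulAction.compHom ℕ ρ
  have hsmul : ∀ (u : Fx G F) (z : ℕ), u • z = (φ ⟨u.1, u.2.1⟩ : Perm ℕ) z := fun u z => rfl
  let H : Subgroup (Perm ℕ) := (MulAction.stabilizer (Fx G F) y).map (Fx G F).subtype
  have hHle : H ≤ Fx G F := by
    rintro _ ⟨u, _, rfl⟩
    exact u.2
  have hidx : H.relIndex (Fx G F) ≠ 0 := by
    have e1 : H.subgroupOf (Fx G F) = MulAction.stabilizer (Fx G F) y := by
      ext u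
      rw [Subgroup.mem_subgroupOf]
      constructor
      · rintro ⟨v, hv, hvu⟩
        have : v = u := Subtype.ext hvu
        rw [← this]
        exact hv
      · intro hu
        exact ⟨u, hu, rfl⟩
    unfold Subgroup.relIndex
    rw [e1, MulAction.index_stabilizer]
    have hfin : (MulAction.orbit (Fx G F) y).Finite := by
      refine hF.subset ?_
      rintro _ ⟨u, rfl⟩
      exact ⟨⟨u.1, u.2.1⟩, u.2.2, rfl⟩
    intro h0
    rw [Set.ncard_eq_zero hfin] at h0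
    exact (MulAction.nonempty_orbit y).ne_empty h0
  obtain ⟨E, hE⟩ := (hFI (Fx G F) H (Fx_open G F) hHle hidx).op
  refine ⟨E, fun g hg => ?_⟩
  obtain ⟨u, hu, hug⟩ := hE g g.2 hg
  have h1 : (⟨u.1, u.2.1⟩ : G) = g := Subtype.ext hug
  have h2 : (φ ⟨u.1, u.2.1⟩ : Perm ℕ) y = y := hu
  rw [h1] at h2
  exact h2

/-- `G` acts faithfully on the complement of `Zt` -/
theorem Iso.faithful (h : Iso G D N ψ θ φ) (k : G)
    (hk : ∀ y, y ∉ Zt G D ψ → (φ k : Perm ℕ) y = y) : k = 1 := by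
  classical
  obtain ⟨t, ht, h1⟩ := h.lemmaB
  have key : ∀ k : G, (∀ y, y ∉ Zt G D ψ → (φ k : Perm ℕ) y = y) → ⇑(k : Perm ℕ) ∘ t = t := by
    intro k hk
    have h2 : ψ (⇑(k : Perm ℕ) ∘ t) = ψ t := by
      rw [h.mul _ _ (Cl.of_mem k.2) ht, h.ext]
      funext x
      exact hk _ (h1 x)
    have h3 := congrArg θ h2
    rwa [h.left _ ((Cl.of_mem k.2).comp ht), h.left _ ht] at h3
  apply Subtype.ext
  apply Perm.ext
  intro x
  obtain ⟨g, hg, h2⟩ := ht {x}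
  have hgx : g x = t x := h2 x (by simp)
  set γ : G := ⟨g, hg⟩ with hγ
  have h3 := key (γ * k * γ⁻¹) (fun y hy => by
    rw [map_mul, map_mul, map_inv]
    show (φ γ : Perm ℕ) ((φ k : Perm ℕ) ((φ γ : Perm ℕ)⁻¹ y)) = y
    rw [hk, ai]
    intro hcon
    have h4 := h.zt_inv' γ _ hcon
    rw [ai] at h4
    exact hy h4)
  have h4 : g ((k : Perm ℕ) (g⁻¹ (t x))) = t x := congrFun h3 x
  rw [← hgx, ia] at h4
  exact g.injective h4

/-- continuity of `φ` and of its inverse -/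
theorem Iso.graph (h : Iso G D N ψ θ φ) (hD : Oligo D) (hFI : FIO G) (g : G) (d : D)
    (hgd : ∀ E E' : Finset ℕ, ∃ γ : G, (∀ x ∈ E, (γ : Perm ℕ) x = (g : Perm ℕ) x) ∧
      ∀ y ∈ E', (φ γ : Perm ℕ) y = (d : Perm ℕ) y) : d = φ g := by
  classical
  have h1 : (φ g)⁻¹ * d = 1 := by
    have h2 := h.faithful (φ.symm ((φ g)⁻¹ * d)) (fun y hy => by
      rw [φ.apply_symm_apply]
      show (φ g : Perm ℕ)⁻¹ ((d : Perm ℕ) y) = y
      obtain ⟨E, hE⟩ := h.open_of_notMem hD hFI y hy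
      obtain ⟨γ, h3, h4⟩ := hgd E {y}
      have h5 := hE (g⁻¹ * γ) (fun x hx => by
        show (g : Perm ℕ)⁻¹ ((γ : Perm ℕ) x) = x
        rw [h3 x hx, ia])
      rw [map_mul, map_inv] at h5
      have h6 : (φ g : Perm ℕ)⁻¹ ((φ γ : Perm ℕ) y) = y := h5
      rw [h4 y (by simp)] at h6
      exact h6)
    have h3 := congrArg φ h2
    rwa [φ.apply_symm_apply, map_one] at h3
  exact (inv_mul_eq_one.1 h1).symm

theorem Iso.cont (h : Iso G D N ψ θ φ) (hG : ClosedG G) (hDc : ClosedG D) (hD : Oligo D)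
    (hFI : FIO G) (y : ℕ) :
    ∃ E : Finset ℕ, ∀ g : G, (∀ x ∈ E, (g : Perm ℕ) x = x) → (φ g : Perm ℕ) y = y :=
  closed_graph hG hDc φ (fun g d hgd => h.graph hD hFI g d hgd) y

theorem Iso.cont' (h : Iso G D N ψ θ φ) (hG : ClosedG G) (hDc : ClosedG D) (hD : Oligo D)
    (hFI : FIO G) (x : ℕ) :
    ∃ E : Finset ℕ, ∀ d : D, (∀ y ∈ E, (d : Perm ℕ) y = y) → (φ.symm d : Perm ℕ) x = x := by
  refine closed_graph hDc hG φ.symm (fun d g hgd => ?_) x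
  have h1 := h.graph hD hFI g d (fun E E' => by
    obtain ⟨δ, h2, h3⟩ := hgd E' E
    exact ⟨φ.symm δ, h3, fun y hy => by rw [φ.apply_symm_apply]; exact h2 y hy⟩)
  rw [h1, φ.symm_apply_apply]

end

end Pool.Agent.OligFI
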