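import Pool.Agent.OligFI.Main

/-!
# Monoid closures of groups in which subgroups of finite index in open subgroups are open

`ω` is `ℕ` with the discrete topology, `ω^ω` is `ℕ → ℕ` with the product topology.
-/

open Equiv Topology

namespace Pool.Agent.Results.MP_c9589f_lc.FiniteIndexOpen

/-- The set of functions given by the elements of a permutation group. -/
def funSet (Γ : Subgroup (Perm ℕ)) : Set (ℕ → ℕ) := {f | ∃ g ∈ Γ, f = ⇑g}

/-- `Γ` is closed in `Sym(ω)` (topology of pointwise convergence). -/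
def ClosedInSym (Γ : Subgroup (Perm ℕ)) : Prop :=
  ∀ g : Perm ℕ, (⇑g : ℕ → ℕ) ∈ closure (funSet Γ) → g ∈ Γ

/-- `Γ` is oligomorphic: finitely many orbits on `k`-tuples for every `k`. -/
def Oligomorphic (Γ : Subgroup (Perm ℕ)) : Prop :=
  ∀ k : ℕ, Finite (MulAction.orbitRel.Quotient Γ (Fin k → ℕ))

/-- A permutation as a self-map of `ω`. -/
def toEnd (g : Perm ℕ) : Function.End ℕ := fun x => g x

/-- The topology of pointwise convergence on a permutation group. -/
@[reducible] def grpTop (Γ : Subgroup (Perm ℕ)) : TopologicalSpace Γ :=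
  TopologicalSpace.induced (fun g => (⇑(g : Perm ℕ) : ℕ → ℕ)) Pi.topologicalSpace

/-- The topology of pointwise convergence on a transformation monoid. -/
@[reducible] def monTop (M : Submonoid (Function.End ℕ)) : TopologicalSpace M :=
  TopologicalSpace.induced (fun f => ((f : Function.End ℕ) : ℕ → ℕ)) Pi.topologicalSpace

/-- `U` is an open subgroup of `Γ`. -/
def IsOpenSubgroup (Γ U : Subgroup (Perm ℕ)) : Prop :=
  U ≤ Γ ∧ IsOpen[grpTop Γ] {g : Γ | (g : Perm ℕ) ∈ U}

/-- Every subgroup of finite index in an open subgroup of `Γ` is open in `Γ`. -/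
def FiniteIndexSubgroupsOpen (Γ : Subgroup (Perm ℕ)) : Prop :=
  ∀ U H : Subgroup (Perm ℕ), IsOpenSubgroup Γ U → H ≤ U → H.relIndex U ≠ 0 → IsOpenSubgroup Γ H

theorem mem_closure_iff_finset {S : Set (ℕ → ℕ)} {f : ℕ → ℕ} :
    f ∈ closure S ↔ ∀ F : Finset ℕ, ∃ h ∈ S, ∀ x ∈ F, h x = f x := by
  classical
  constructor
  · intro hf F
    have ho : IsOpen {h : ℕ → ℕ | ∀ x ∈ F, h x = f x} := by
      have : {h : ℕ → ℕ | ∀ x ∈ F, h x = f x} = ⋂ x ∈ F, (fun h : ℕ → ℕ => h x) ⁻¹' {f x} := by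
        ext h
        simp
      rw [this]
      exact isOpen_biInter_finset fun x _ => (isOpen_discrete _).preimage (continuous_apply x)
    obtain ⟨h, h1, h2⟩ := mem_closure_iff.1 hf _ ho (fun x _ => rfl)
    exact ⟨h, h2, h1⟩
  · intro hf
    rw [mem_closure_iff]
    intro o ho hfo
    obtain ⟨I, u, hu, hsub⟩ := isOpen_pi_iff.1 ho f hfo
    obtain ⟨h, hS, hh⟩ := hf I
    refine ⟨h, hsub fun x hx => ?_, hS⟩
    rw [hh x hx]
    exact (hu x hx).2

theorem mem_closure_funSet {Γ : Subgroup (Perm ℕ)} {f : ℕ → ℕ} :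
    f ∈ closure (funSet Γ) ↔ Olig.Cl Γ f := by
  rw [mem_closure_iff_finset]
  constructor
  · intro h F
    obtain ⟨_, ⟨g, hg, rfl⟩, h1⟩ := h F
    exact ⟨g, hg, h1⟩
  · intro h F
    obtain ⟨g, hg, h1⟩ := h F
    exact ⟨_, ⟨g, hg, rfl⟩, h1⟩

/-- The monoid closure of `Γ` in `ω^ω`, a submonoid of the monoid of all maps `ω → ω`. -/
def monClosure (Γ : Subgroup (Perm ℕ)) : Submonoid (Function.End ℕ) where
  carrier := {f | (f : ℕ → ℕ) ∈ closure (funSet Γ)}
  one_mem' := show (⇑(1 : Perm ℕ) : ℕ → ℕ) ∈ closure (funSet Γ) from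
    subset_closure ⟨1, Γ.one_mem, rfl⟩
  mul_mem' := fun {f h} hf hh => by
    have h1 := mem_closure_funSet.1 hf
    have h2 := mem_closure_funSet.1 hh
    exact mem_closure_funSet.2 (h1.comp h2)

/-- The group of all permutations `g` such that `g` and its inverse lie in `M`. -/
def autGroup (M : Submonoid (Function.End ℕ)) : Subgroup (Perm ℕ) where
  carrier := {g | toEnd g ∈ M ∧ toEnd g⁻¹ ∈ M}
  one_mem' := ⟨M.one_mem, M.one_mem⟩
  mul_mem' := fun {a b} ha hb => ⟨show toEnd a * toEnd b ∈ M from M.mul_mem ha.1 hb.1, by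
    rw [mul_inv_rev]; exact show toEnd b⁻¹ * toEnd a⁻¹ ∈ M from M.mul_mem hb.2 ha.2⟩
  inv_mem' := fun {a} ha => ⟨ha.2, by rw [inv_inv]; exact ha.1⟩

/-- `M` is the endomorphism monoid of an `ω`-categorical structure with domain `ω`: `M` is closed
in `ω^ω` and the group of its invertible elements is oligomorphic. -/
def IsEndOmegaCategorical (M : Submonoid (Function.End ℕ)) : Prop :=
  IsClosed {f : ℕ → ℕ | (f : Function.End ℕ) ∈ M} ∧ Oligomorphic (autGroup M)

theorem closedG {Γ : Subgroup (Perm ℕ)} (h : ClosedInSym Γ) : Olig.ClosedG Γ :=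
  fun g hg => h g (mem_closure_funSet.2 hg)

theorem oligo {Γ : Subgroup (Perm ℕ)} (h : Oligomorphic Γ) : Olig.Oligo Γ := by
  classical
  intro k
  have := h k
  refine ⟨(Set.finite_range (fun q : MulAction.orbitRel.Quotient Γ (Fin k → ℕ) =>
    Quotient.out q)).toFinset, fun x => ?_⟩
  let q : MulAction.orbitRel.Quotient Γ (Fin k → ℕ) := Quotient.mk _ x
  refine ⟨Quotient.out q, (Set.Finite.mem_toFinset _).2 ⟨q, rfl⟩, ?_⟩
  have h1 : (MulAction.orbitRel Γ (Fin k → ℕ)).r x (Quotient.out q) :=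
    Quotient.exact (Quotient.out_eq q).symm
  obtain ⟨g, hg⟩ := h1
  exact ⟨g, g.2, fun i => congrFun hg i⟩

theorem isOpenSubgroup_iff {Γ U : Subgroup (Perm ℕ)} : IsOpenSubgroup Γ U ↔ Olig.OpenIn Γ U := by
  constructor
  · rintro ⟨hle, ho⟩
    refine ⟨hle, ?_⟩
    obtain ⟨t, ht, hts⟩ := (@isOpen_induced_iff _ _ Pi.topologicalSpace _ _).1 ho
    have h1 : (⇑(1 : Perm ℕ) : ℕ → ℕ) ∈ t := by
      have h2 : (1 : Γ) ∈ (fun g : Γ => (⇑(g : Perm ℕ) : ℕ → ℕ)) ⁻¹' t := by
        rw [hts]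
        exact U.one_mem
      exact h2
    obtain ⟨I, u, hu, hsub⟩ := isOpen_pi_iff.1 ht _ h1
    refine ⟨I, fun g hg h => ?_⟩
    have h3 : (⟨g, hg⟩ : Γ) ∈ (fun g : Γ => (⇑(g : Perm ℕ) : ℕ → ℕ)) ⁻¹' t := by
      refine hsub fun x hx => ?_
      have h4 := (hu x hx).2
      change g x ∈ u x
      rw [h x hx]
      exact h4
    rw [hts] at h3
    exact h3
  · rintro ⟨hle, A, hA⟩
    refine ⟨hle, (@isOpen_induced_iff _ _ Pi.topologicalSpace _ _).2
      ⟨⋃ v ∈ U, {f : ℕ → ℕ | ∀ x ∈ A, f x = v x}, ?_, ?_⟩⟩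
    · refine isOpen_biUnion fun v _ => ?_
      have : {f : ℕ → ℕ | ∀ x ∈ A, f x = v x} = ⋂ x ∈ A, (fun h : ℕ → ℕ => h x) ⁻¹' {v x} := by
        ext h
        simp
      rw [this]
      exact isOpen_biInter_finset fun x _ => (isOpen_discrete _).preimage (continuous_apply x)
    · ext g
      simp only [Set.mem_preimage, Set.mem_iUnion, Set.mem_ofPred_eq]
      constructor
      · rintro ⟨v, hv, h⟩
        have h1 : v⁻¹ * (g : Perm ℕ) ∈ U := hA _ (Γ.mul_mem (Γ.inv_mem (hle hv)) g.2) (fun x hx => by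
          rw [Perm.mul_apply, Perm.inv_eq_iff_eq]; exact (h x hx))
        have := U.mul_mem hv h1
        rwa [mul_inv_cancel_left] at this
      · intro hg
        exact ⟨g, hg, fun _ _ => rfl⟩

theorem mem_monClosure {Γ : Subgroup (Perm ℕ)} {f : Function.End ℕ} :
    f ∈ monClosure Γ ↔ Olig.Cl Γ f := mem_closure_funSet

/-- the inclusion of `Γ` in its closure -/
def inc {Γ : Subgroup (Perm ℕ)} (g : Γ) : monClosure Γ :=
  ⟨toEnd g, mem_monClosure.2 (Olig.Cl.of_mem g.2)⟩

theorem inc_mul {Γ : Subgroup (Perm ℕ)} (g h : Γ) : inc (g * h) = inc g * inc h := rfl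

theorem inc_one {Γ : Subgroup (Perm ℕ)} : inc (1 : Γ) = 1 := rfl

/-- the inclusion of the group of units in `N` -/
def incN {N : Submonoid (Function.End ℕ)} (d : autGroup N) : N := ⟨toEnd d, d.2.1⟩

theorem incN_mul {N : Submonoid (Function.End ℕ)} (g h : autGroup N) :
    incN (g * h) = incN g * incN h := rfl

theorem incN_one {N : Submonoid (Function.End ℕ)} : incN (1 : autGroup N) = 1 := rfl

theorem inc_injective {Γ : Subgroup (Perm ℕ)} : Function.Injective (inc : Γ → monClosure Γ) := by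
  intro g h hgh
  exact Subtype.ext (DFunLike.coe_injective (congrArg Subtype.val hgh))

theorem incN_injective {N : Submonoid (Function.End ℕ)} :
    Function.Injective (incN : autGroup N → N) := by
  intro g h hgh
  exact Subtype.ext (DFunLike.coe_injective (congrArg Subtype.val hgh))

theorem exists_restrict {Γ : Subgroup (Perm ℕ)} {N : Submonoid (Function.End ℕ)}
    (e : monClosure Γ ≃* N) (g : Γ) : ∃ d : autGroup N, incN d = e (inc g) := by
  have h1 : e (inc g) * e (inc g⁻¹) = 1 := by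
    rw [← map_mul, ← inc_mul, mul_inv_cancel, inc_one, map_one]
  have h2 : e (inc g⁻¹) * e (inc g) = 1 := by
    rw [← map_mul, ← inc_mul, inv_mul_cancel, inc_one, map_one]
  let p : Perm ℕ := ⟨((e (inc g)).1 : ℕ → ℕ), ((e (inc g⁻¹)).1 : ℕ → ℕ),
    fun x => congrFun (congrArg Subtype.val h2) x, fun x => congrFun (congrArg Subtype.val h1) x⟩
  have hp : p ∈ autGroup N := ⟨(e (inc g)).2, (e (inc g⁻¹)).2⟩
  exact ⟨⟨p, hp⟩, rfl⟩

theorem exists_restrict' {Γ : Subgroup (Perm ℕ)} (hc : ClosedInSym Γ)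
    {N : Submonoid (Function.End ℕ)} (e : monClosure Γ ≃* N) (d : autGroup N) :
    ∃ g : Γ, inc g = e.symm (incN d) := by
  have h1 : e.symm (incN d) * e.symm (incN d⁻¹) = 1 := by
    rw [← map_mul, ← incN_mul, mul_inv_cancel, incN_one, map_one]
  have h2 : e.symm (incN d⁻¹) * e.symm (incN d) = 1 := by
    rw [← map_mul, ← incN_mul, inv_mul_cancel, incN_one, map_one]
  let p : Perm ℕ := ⟨((e.symm (incN d)).1 : ℕ → ℕ), ((e.symm (incN d⁻¹)).1 : ℕ → ℕ),
    fun x => congrFun (congrArg Subtype.val h2) x, fun x => congrFun (congrArg Subtype.val h1) x⟩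
  have hp : p ∈ Γ := hc p (e.symm (incN d)).2
  exact ⟨⟨p, hp⟩, rfl⟩

theorem autGroup_closed {N : Submonoid (Function.End ℕ)}
    (hN : IsClosed {f : ℕ → ℕ | (f : Function.End ℕ) ∈ N}) : Olig.ClosedG (autGroup N) := by
  classical
  have key : ∀ f : ℕ → ℕ, Olig.Cl (autGroup N) f → (f : Function.End ℕ) ∈ N := by
    intro f hf
    have h1 : f ∈ closure {f : ℕ → ℕ | (f : Function.End ℕ) ∈ N} := by
      rw [mem_closure_iff_finset]
      intro F
      obtain ⟨g, hg, h⟩ := hf F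
      exact ⟨⇑g, hg.1, h⟩
    rw [hN.closure_eq] at h1
    exact h1
  intro g hg
  refine ⟨key _ hg, key _ fun F => ?_⟩
  obtain ⟨d, hd, h⟩ := hg (F.image ⇑g⁻¹)
  refine ⟨d⁻¹, (autGroup N).inv_mem hd, fun x hx => ?_⟩
  show d⁻¹ x = g⁻¹ x
  rw [Perm.inv_eq_iff_eq, h _ (Finset.mem_image_of_mem _ hx)]
  exact (Olig.ai g x).symm

theorem cl_autGroup {N : Submonoid (Function.End ℕ)}
    (hN : IsClosed {f : ℕ → ℕ | (f : Function.End ℕ) ∈ N}) (f : ℕ → ℕ)
    (hf : Olig.Cl (autGroup N) f) : (f : Function.End ℕ) ∈ N := by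
  have h1 : f ∈ closure {f : ℕ → ℕ | (f : Function.End ℕ) ∈ N} := by
    rw [mem_closure_iff_finset]
    intro F
    obtain ⟨g, hg, h⟩ := hf F
    exact ⟨⇑g, hg.1, h⟩
  rw [hN.closure_eq] at h1
  exact h1

/-- continuity of a map between transformation monoids, by finite sets -/
theorem continuous_of_finset {M N : Submonoid (Function.End ℕ)} (e : M → N)
    (h : ∀ y : ℕ, ∃ E : Finset ℕ, ∀ f f' : M, (∀ x ∈ E, f.1 x = f'.1 x) →
      (e f).1 y = (e f').1 y) :
    @Continuous _ _ (monTop M) (monTop N) e := by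
  letI := monTop M
  refine continuous_induced_rng.2 (continuous_pi fun y => ?_)
  rw [continuous_discrete_rng]
  intro z
  obtain ⟨E, hE⟩ := h y
  rw [isOpen_iff_forall_mem_open]
  intro f hf
  refine ⟨{f' : M | ∀ x ∈ E, f'.1 x = f.1 x}, fun f' hf' => ?_, ?_, fun _ _ => rfl⟩
  · have h1 := hE f' f hf'
    show (e f').1 y = z
    rw [h1]
    exact hf
  · have : {f' : M | ∀ x ∈ E, f'.1 x = f.1 x} =
        ⋂ x ∈ E, (fun f' : M => f'.1 x) ⁻¹' {f.1 x} := by
      ext f'
      simp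
    rw [this]
    refine isOpen_biInter_finset fun x _ => (isOpen_discrete _).preimage ?_
    exact (continuous_apply x).comp (continuous_induced_dom (f := fun f : M => ((f : Function.End ℕ) : ℕ → ℕ)))

/-- Let `Γ` be a closed oligomorphic permutation group on `ω` such that every subgroup of finite
index in an open subgroup of `Γ` is open. Then every isomorphism from the monoid closure of `Γ` to
the endomorphism monoid of an `ω`-categorical structure is a homeomorphism. -/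
theorem result (Γ : Subgroup (Perm ℕ)) (hc : ClosedInSym Γ) (ho : Oligomorphic Γ)
    (hfi : FiniteIndexSubgroupsOpen Γ) (N : Submonoid (Function.End ℕ))
    (hN : IsEndOmegaCategorical N) (e : monClosure Γ ≃* N) :
    @Continuous _ _ (monTop (monClosure Γ)) (monTop N) e ∧
      @Continuous _ _ (monTop N) (monTop (monClosure Γ)) e.symm := by
  classical
  choose r hr using exists_restrict e
  choose r' hr' using exists_restrict' hc e
  let φ : Γ ≃* autGroup N :=
    { toFun := r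
      invFun := r'
      left_inv := fun g => inc_injective (by rw [hr', hr, e.symm_apply_apply])
      right_inv := fun g => incN_injective (by rw [hr, hr', e.apply_symm_apply])
      map_mul' := fun g h => incN_injective (by rw [hr, inc_mul, map_mul, incN_mul, hr, hr]) }
  let ψ : (ℕ → ℕ) → (ℕ → ℕ) := fun f =>
    if h : Olig.Cl Γ f then ((e ⟨f, mem_monClosure.2 h⟩).1 : ℕ → ℕ) else f
  let θ : (ℕ → ℕ) → (ℕ → ℕ) := fun f =>
    if h : (f : Function.End ℕ) ∈ N then ((e.symm ⟨f, h⟩).1 : ℕ → ℕ) else f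
  have hψ : ∀ f (h : Olig.Cl Γ f), ψ f = ((e ⟨f, mem_monClosure.2 h⟩).1 : ℕ → ℕ) :=
    fun f h => dif_pos h
  have hθ : ∀ f (h : (f : Function.End ℕ) ∈ N), θ f = ((e.symm ⟨f, h⟩).1 : ℕ → ℕ) :=
    fun f h => dif_pos h
  have hψN : ∀ f, Olig.Cl Γ f → (ψ f : Function.End ℕ) ∈ N := by
    intro f h
    rw [hψ f h]
    exact (e ⟨f, mem_monClosure.2 h⟩).2
  have hθΓ : ∀ f : ℕ → ℕ, (f : Function.End ℕ) ∈ N → Olig.Cl Γ (θ f) := by
    intro f h
    rw [hθ f h]
    exact mem_monClosure.1 (e.symm ⟨f, h⟩).2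
  have hiso : OligFI.Iso Γ (autGroup N) (fun f => (f : Function.End ℕ) ∈ N) ψ θ φ :=
    { cl := fun f hf => cl_autGroup hN.1 f hf
      ins := hψN
      fro := hθΓ
      mul := fun f f' hf hf' => by
        rw [hψ _ (hf.comp hf'), hψ f hf, hψ f' hf']
        exact congrArg Subtype.val
          (map_mul e ⟨f, mem_monClosure.2 hf⟩ ⟨f', mem_monClosure.2 hf'⟩)
      mul' := fun f f' hf hf' => by
        rw [hθ (f ∘ f') (N.mul_mem hf hf'), hθ f hf, hθ f' hf']
        exact congrArg Subtype.val (map_mul e.symm ⟨f, hf⟩ ⟨f', hf'⟩)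
      left := fun f hf => by
        rw [hθ _ (hψN f hf)]
        have h1 : (⟨ψ f, hψN f hf⟩ : N) = e ⟨f, mem_monClosure.2 hf⟩ := Subtype.ext (hψ f hf)
        rw [h1, e.symm_apply_apply]
      right := fun f hf => by
        rw [hψ _ (hθΓ f hf)]
        have h1 : (⟨θ f, mem_monClosure.2 (hθΓ f hf)⟩ : monClosure Γ) = e.symm ⟨f, hf⟩ :=
          Subtype.ext (hθ f hf)
        rw [h1, e.apply_symm_apply]
      ext := fun g => by
        rw [hψ _ (Olig.Cl.of_mem g.2)]
        exact (congrArg Subtype.val (hr g)).symm }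
  have hFI : OligFI.FIO Γ := fun U H hU hH hi =>
    isOpenSubgroup_iff.1 (hfi U H (isOpenSubgroup_iff.2 hU) hH hi)
  obtain ⟨_, h1, h2⟩ := hiso.main (closedG hc) (oligo ho) (autGroup_closed hN.1) (oligo hN.2) hFI
  refine ⟨continuous_of_finset _ fun y => ?_, continuous_of_finset _ fun x => ?_⟩
  · obtain ⟨E, hE⟩ := h1 y
    refine ⟨E, fun f f' hff => ?_⟩
    have h3 := hE f.1 f'.1 (mem_monClosure.1 f.2) (mem_monClosure.1 f'.2) hff
    rw [hψ _ (mem_monClosure.1 f.2), hψ _ (mem_monClosure.1 f'.2)] at h3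
    exact h3
  · obtain ⟨E, hE⟩ := h2 x
    refine ⟨E, fun f f' hff => ?_⟩
    have h3 := hE f.1 f'.1 f.2 f'.2 hff
    rw [hθ _ f.2, hθ _ f'.2] at h3
    exact h3

end Pool.Agent.Results.MP_c9589f_lc.FiniteIndexOpen
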