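import Pool.Agent.OligFI.Core
import Pool.Agent.Olig.Uniq

/-!
# Isomorphisms of the closure of `G` with a closed monoid are homeomorphisms
-/

open Equiv

namespace Pool.Agent.OligFI

open Pool.Agent.Olig

/-- the extension of a continuous homomorphism to the closure -/
theorem ext_cont {G D : Subgroup (Perm ℕ)} (φ : G →* D) (E : ℕ → Finset ℕ)
    (hE : ∀ y, ∀ g : G, (∀ x ∈ E y, (g : Perm ℕ) x = x) → (φ g : Perm ℕ) y = y) :
    ∃ Φ : (ℕ → ℕ) → (ℕ → ℕ),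
      (∀ f, Cl G f → ∀ y, ∀ g : G, (∀ x ∈ E y, (g : Perm ℕ) x = f x) → Φ f y = (φ g : Perm ℕ) y) ∧
      (∀ f, Cl G f → Cl D (Φ f)) ∧
      (∀ f f', Cl G f → Cl G f' → Φ (f ∘ f') = Φ f ∘ Φ f') ∧
      ∀ g : G, Φ ⇑(g : Perm ℕ) = ⇑(φ g : Perm ℕ) := by
  classical
  have hex : ∀ f, Cl G f → ∀ F : Finset ℕ, ∃ g : G, ∀ x ∈ F, (g : Perm ℕ) x = f x := by
    intro f hf F
    obtain ⟨g, hg, h⟩ := hf F
    exact ⟨⟨g, hg⟩, h⟩
  have huniq : ∀ y, ∀ g g' : G, (∀ x ∈ E y, (g : Perm ℕ) x = (g' : Perm ℕ) x) →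
      (φ g : Perm ℕ) y = (φ g' : Perm ℕ) y := by
    intro y g g' h
    have h1 := hE y (g'⁻¹ * g) (fun x hx => by
      show (g' : Perm ℕ)⁻¹ ((g : Perm ℕ) x) = x
      rw [h x hx, ia])
    rw [map_mul, map_inv] at h1
    have h2 : (φ g' : Perm ℕ)⁻¹ ((φ g : Perm ℕ) y) = y := h1
    rwa [Perm.inv_eq_iff_eq] at h2
  let Φ : (ℕ → ℕ) → (ℕ → ℕ) := fun f y =>
    if hf : Cl G f then (φ (hex f hf (E y)).choose : Perm ℕ) y else y
  have hΦ : ∀ f, Cl G f → ∀ y, ∀ g : G, (∀ x ∈ E y, (g : Perm ℕ) x = f x) →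
      Φ f y = (φ g : Perm ℕ) y := by
    intro f hf y g hg
    have h0 := (hex f hf (E y)).choose_spec
    have e0 : Φ f y = (φ (hex f hf (E y)).choose : Perm ℕ) y := dif_pos hf
    rw [e0]
    exact huniq y _ _ (fun x hx => (h0 x hx).trans (hg x hx).symm)
  refine ⟨Φ, hΦ, fun f hf F => ?_, fun f f' hf hf' => ?_, fun g => ?_⟩
  · obtain ⟨g, hg⟩ := hex f hf (F.biUnion E)
    refine ⟨φ g, (φ g).2, fun y hy => ?_⟩
    exact (hΦ f hf y g fun x hx => hg x (Finset.mem_biUnion.2 ⟨y, hy, hx⟩)).symm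
  · funext y
    obtain ⟨g', hg'⟩ := hex f' hf' (E y)
    have e1 : Φ f' y = (φ g' : Perm ℕ) y := hΦ f' hf' y g' hg'
    obtain ⟨g, hg⟩ := hex f hf (E ((φ g' : Perm ℕ) y) ∪ (E y).image f')
    have e2 : Φ f ((φ g' : Perm ℕ) y) = (φ g : Perm ℕ) ((φ g' : Perm ℕ) y) :=
      hΦ f hf _ g fun x hx => hg x (Finset.mem_union_left _ hx)
    rw [Function.comp_apply, e1, e2, hΦ _ (hf.comp hf') y (g * g') (fun x hx => ?_), map_mul]
    · rfl
    · show (g : Perm ℕ) ((g' : Perm ℕ) x) = f (f' x)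
      rw [hg' x hx, hg _ (Finset.mem_union_right _ (Finset.mem_image_of_mem _ hx))]
  · funext y
    exact hΦ _ (Cl.of_mem g.2) y g fun _ _ => rfl

variable {G D : Subgroup (Perm ℕ)} {N : (ℕ → ℕ) → Prop} {ψ θ : (ℕ → ℕ) → (ℕ → ℕ)} {φ : G ≃* D}

theorem Iso.main (h : Iso G D N ψ θ φ) (hG : ClosedG G) (hGo : Oligo G) (hDc : ClosedG D)
    (hD : Oligo D) (hFI : FIO G) :
    (∀ f, N f → Cl D f) ∧
    (∀ y, ∃ E : Finset ℕ, ∀ f f', Cl G f → Cl G f' → (∀ x ∈ E, f x = f' x) → ψ f y = ψ f' y) ∧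
    ∀ x, ∃ E : Finset ℕ, ∀ f f', N f → N f' → (∀ y ∈ E, f y = f' y) → θ f x = θ f' x := by
  classical
  choose E hE using h.cont hG hDc hD hFI
  choose E' hE' using h.cont' hG hDc hD hFI
  obtain ⟨Φ, h1, h2, h3, h4⟩ := ext_cont φ.toMonoidHom E hE
  have hfix : ∀ f, Cl G f → θ (Φ f) = f := by
    intro f hf
    refine endo_eq hG hGo (fun f => θ (Φ f)) (fun f hf => h.fro _ (h.cl _ (h2 f hf))) ?_ ?_ hf
    · intro f f' hf hf'
      rw [h3 f f' hf hf', h.mul' _ _ (h.cl _ (h2 f hf)) (h.cl _ (h2 f' hf'))]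
    · intro g hg
      have e1 := h4 ⟨g, hg⟩
      have e2 := h.ext' (φ ⟨g, hg⟩)
      simp only [MulEquiv.toMonoidHom_eq_coe, MonoidHom.coe_coe] at e1
      rw [e1, e2, φ.symm_apply_apply]
  have hψ : ∀ f, Cl G f → ψ f = Φ f := by
    intro f hf
    have e := h.right (Φ f) (h.cl _ (h2 f hf))
    rwa [hfix f hf] at e
  have hNcl : ∀ f, N f → Cl D f := by
    intro f hf
    rw [← h.right f hf, hψ _ (h.fro f hf)]
    exact h2 _ (h.fro f hf)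
  refine ⟨hNcl, fun y => ⟨E y, fun f f' hf hf' hff => ?_⟩, fun x => ⟨E' x, fun f f' hf hf' hff => ?_⟩⟩
  · obtain ⟨g, hg, hgf⟩ := hf (E y)
    rw [hψ f hf, hψ f' hf', h1 f hf y ⟨g, hg⟩ hgf,
      h1 f' hf' y ⟨g, hg⟩ fun x hx => (hgf x hx).trans (hff x hx)]
  · have key : ∀ f, N f → ∀ d : D, (∀ y ∈ E' x, (d : Perm ℕ) y = f y) →
        θ f x = (φ.symm d : Perm ℕ) x := by
      intro f hf d hd
      obtain ⟨g, hg, hgf⟩ := h.fro f hf (insert x ((E' x).biUnion E))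
      have e1 : ∀ y ∈ E' x, (φ ⟨g, hg⟩ : Perm ℕ) y = f y := by
        intro y hy
        have e2 := h1 (θ f) (h.fro f hf) y ⟨g, hg⟩ (fun z hz =>
          hgf z (Finset.mem_insert_of_mem (Finset.mem_biUnion.2 ⟨y, hy, hz⟩)))
        rw [← hψ _ (h.fro f hf), h.right f hf] at e2
        exact e2.symm
      have e3 := hE' x (d⁻¹ * φ ⟨g, hg⟩) (fun y hy => by
        show (d : Perm ℕ)⁻¹ ((φ ⟨g, hg⟩ : Perm ℕ) y) = y
        rw [e1 y hy, ← hd y hy, ia])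
      rw [map_mul, map_inv, φ.symm_apply_apply] at e3
      have e4 : (φ.symm d : Perm ℕ)⁻¹ (g x) = x := e3
      rw [Perm.inv_eq_iff_eq, hgf x (Finset.mem_insert_self _ _)] at e4
      exact e4
    obtain ⟨d, hd, hdf⟩ := hNcl f hf (E' x)
    rw [key f hf ⟨d, hd⟩ hdf, key f' hf' ⟨d, hd⟩ fun y hy => (hdf y hy).trans (hff y hy)]

end Pool.Agent.OligFI
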